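import Mathlib
import Pool.Agent.Helper270.Tree
import Pool.Agent.Helper270.Aff

set_option autoImplicit false

namespace Pool.Agent.Results.MP_d66326_al.NotStronglyAccessible

/-- A nontrivial splitting of `G` over the class of finitely generated groups, given by its
Bass-Serre tree `T`: the group `G` acts on the tree `T` by automorphisms without inversions, with
finite quotient graph (finitely many orbits of vertices and of edges), all edge stabilisers are
finitely generated, and `G` fixes no vertex of `T`. The vertex groups of the splitting are the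
stabilisers of the vertices of `T`. -/
structure Splitting (G : Type) [Group G] where
  V : Type
  [act : MulAction G V]
  T : SimpleGraph V
  isTree : T.IsTree
  adj_smul : ∀ (g : G) (v w : V), T.Adj v w → T.Adj (g • v) (g • w)
  no_inversion : ∀ (g : G) (v w : V), T.Adj v w → ¬ (g • v = w ∧ g • w = v)
  finite_vertex_orbits : ∃ F : Finset V, ∀ v, ∃ g : G, g • v ∈ F
  finite_edge_orbits : ∃ E : Finset (V × V), ∀ v w, T.Adj v w → ∃ g : G, (g • v, g • w) ∈ E
  edge_fg : ∀ v w, T.Adj v w → (MulAction.stabilizer G v ⊓ MulAction.stabilizer G w).FG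
  no_fixed_vertex : ∀ v : V, ∃ g : G, g • v ≠ v

attribute [instance] Splitting.act

/-- `TerminatesIn n G`: there is a hierarchy for `G` over the class of finitely generated groups
which terminates at stage `n` at the latest. A group without nontrivial splittings is kept, every
other group is replaced by the vertex groups of one of its nontrivial splittings. -/
def TerminatesIn : ℕ → (G : Type) → [Group G] → Prop
  | 0, G, _ => ¬ Nonempty (Splitting G)
  | n + 1, G, _ => ¬ Nonempty (Splitting G) ∨
      ∃ S : Splitting G, ∀ v : S.V, TerminatesIn n (MulAction.stabilizer G v)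

/-- `G` is strongly accessible over the class of finitely generated groups. -/
def StronglyAccessible (G : Type) [Group G] : Prop := ∃ n, TerminatesIn n G

section Line

/-- The line with vertex set `ℤ`. -/
def lineGraph : SimpleGraph ℤ where
  Adj i j := i + 1 = j ∨ j + 1 = i
  symm := ⟨fun _ _ h => h.symm⟩
  loopless := ⟨fun i h => by rcases h with h | h <;> omega⟩

theorem line_isTree : lineGraph.IsTree := by
  constructor
  · have h : ∀ (n : ℕ) (i : ℤ), lineGraph.Reachable i (i + n) := by
      intro n i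
      induction n with
      | zero => simp
      | succ n ih =>
        refine ih.trans (SimpleGraph.Adj.reachable ?_)
        left; push_cast; ring
    have h2 : ∀ i j : ℤ, lineGraph.Reachable i j := by
      intro i j
      rcases le_total i j with hij | hij
      · have := h (j - i).toNat i
        rwa [show i + ((j - i).toNat : ℤ) = j from by omega] at this
      · have := h (i - j).toNat j
        rw [show j + ((i - j).toNat : ℤ) = i from by omega] at this
        exact this.symm
    exact (SimpleGraph.connected_iff _).mpr ⟨h2, ⟨0⟩⟩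
  · have key : ∀ i j : ℤ, i + 1 = j →
        ¬ (lineGraph \ SimpleGraph.fromEdgeSet {s(i, j)}).Reachable i j := by
      intro i j hij hr
      have hinv : ∀ k : ℤ, (lineGraph \ SimpleGraph.fromEdgeSet {s(i, j)}).Reachable i k →
          k ≤ i := by
        intro k hk
        rw [SimpleGraph.reachable_iff_reflTransGen] at hk
        induction hk with
        | refl => exact le_rfl
        | tail _ hbc ih =>
          rename_i a b _
          rw [SimpleGraph.sdiff_adj, SimpleGraph.fromEdgeSet_adj] at hbc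
          obtain ⟨h1, h2⟩ := hbc
          by_contra hcon
          apply h2
          rcases h1 with h1 | h1
          · have e1 : a = i := by omega
            have e2 : b = j := by omega
            rw [e1, e2]
            exact ⟨rfl, by omega⟩
          · omega
      have := hinv j hr
      omega
    rw [SimpleGraph.isAcyclic_iff_forall_adj_isBridge]
    intro i j hij
    rw [SimpleGraph.isBridge_iff]
    rcases hij with hij | hij
    · exact key i j hij
    · intro hr
      apply key j i hij
      rw [Sym2.eq_swap]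
      exact hr.symm

variable {P : Type} [Group P]

/-- The action on the line by translations through a character. -/
@[reducible] def lineAction (χ : P →* Multiplicative ℤ) : MulAction P ℤ where
  smul p i := (χ p).toAdd + i
  one_smul i := by change (χ 1).toAdd + i = i; simp
  mul_smul p q i := by
    change (χ (p * q)).toAdd + i = (χ p).toAdd + ((χ q).toAdd + i)
    simp [add_assoc]

theorem exists_splitting_of_character (χ : P →* Multiplicative ℤ) (hχ : χ ≠ 1)
    (hker : χ.ker.FG) : ∃ S : Splitting P, ∀ v : S.V, MulAction.stabilizer P v = χ.ker := by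
  classical
  let _inst : MulAction P ℤ := lineAction χ
  have hsmul : ∀ (p : P) (i : ℤ), p • i = (χ p).toAdd + i := fun _ _ => rfl
  have hstab : ∀ i : ℤ, MulAction.stabilizer P i = χ.ker := by
    intro i
    ext p
    rw [MulAction.mem_stabilizer_iff, hsmul, MonoidHom.mem_ker]
    constructor
    · intro h
      exact Multiplicative.toAdd.injective (by change (χ p).toAdd = 0; omega)
    · intro h; rw [h]; simp
  obtain ⟨g, hg⟩ : ∃ g, χ g ≠ 1 := by
    by_contra hcon
    push Not at hcon
    exact hχ (by ext p; rw [hcon p]; rfl)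
  have hd : (χ g).toAdd ≠ 0 := fun h => hg (Multiplicative.toAdd.injective h)
  set d := (χ g).toAdd with hdd
  have horb : ∀ i : ℤ, ∃ p : P, 0 ≤ p • i ∧ p • i < |d| := by
    intro i
    refine ⟨g ^ (-(i / d)), ?_⟩
    have e : (χ (g ^ (-(i / d)))).toAdd = -(i / d) * d := by
      rw [map_zpow, toAdd_zpow, smul_eq_mul]
    rw [hsmul, e]
    have h1 := Int.mul_ediv_add_emod i d
    have h2 := Int.emod_nonneg i hd
    have h3 := Int.emod_lt_abs i hd
    have h4 : -(i / d) * d + i = i % d := by
      rw [mul_comm] at h1; linarith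
    rw [h4]; exact ⟨h2, h3⟩
  refine ⟨⟨ℤ, lineGraph, line_isTree, ?_, ?_, ?_, ?_, ?_, ?_⟩, hstab⟩
  · intro p i j h
    rw [hsmul, hsmul]
    rcases h with h | h
    · left; omega
    · right; omega
  · intro p i j h hcon
    rw [hsmul, hsmul] at hcon
    rcases h with h | h <;> omega
  · refine ⟨Finset.Ico 0 |d|, fun i => ?_⟩
    obtain ⟨p, h1, h2⟩ := horb i
    exact ⟨p, Finset.mem_Ico.mpr ⟨h1, h2⟩⟩
  · refine ⟨(Finset.Ico (0 : ℤ) |d|) ×ˢ (Finset.Ico (-1 : ℤ) (|d| + 1)), fun i j hij => ?_⟩
    obtain ⟨p, h1, h2⟩ := horb i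
    refine ⟨p, Finset.mem_product.mpr ⟨Finset.mem_Ico.mpr ⟨h1, h2⟩, Finset.mem_Ico.mpr ?_⟩⟩
    rw [hsmul] at h1 h2
    change -1 ≤ p • j ∧ p • j < |d| + 1
    rw [hsmul]
    rcases hij with h | h <;> constructor <;> omega
  · intro i j _
    rw [hstab, hstab, inf_idem]
    exact hker
  · intro i
    refine ⟨g, ?_⟩
    rw [hsmul]
    omega

theorem splits_of_character (χ : P →* Multiplicative ℤ) (hχ : χ ≠ 1) (hker : χ.ker.FG) :
    Nonempty (Splitting P) := by
  obtain ⟨S, -⟩ := exists_splitting_of_character χ hχ hker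
  exact ⟨S⟩

end Line

section Sanity

/-- A sanity check: the trivial group has no nontrivial splitting. -/
theorem not_splitting_of_subsingleton {P : Type} [Group P] [Subsingleton P] :
    ¬ Nonempty (Splitting P) := by
  rintro ⟨S⟩
  obtain ⟨v⟩ : Nonempty S.V := S.isTree.connected.nonempty
  obtain ⟨g, hg⟩ := S.no_fixed_vertex v
  rw [Subsingleton.elim g 1, one_smul] at hg
  exact hg rfl

/-- A sanity check: the infinite cyclic group splits nontrivially, hence has no hierarchy that
terminates at stage `0`, and it is strongly accessible. -/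
theorem stronglyAccessible_int : ¬ TerminatesIn 0 (Multiplicative ℤ) ∧
    StronglyAccessible (Multiplicative ℤ) := by
  have hk : (MonoidHom.id (Multiplicative ℤ)).ker = ⊥ := by
    ext x
    rw [MonoidHom.mem_ker, Subgroup.mem_bot]; rfl
  have hχ : MonoidHom.id (Multiplicative ℤ) ≠ 1 := by
    intro h
    have := DFunLike.congr_fun h (Multiplicative.ofAdd 1)
    have h2 := congrArg Multiplicative.toAdd this
    simp at h2
  obtain ⟨S, hS⟩ := exists_splitting_of_character (MonoidHom.id (Multiplicative ℤ)) hχ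
    (by rw [hk]; exact (Subgroup.fg_iff _).mpr ⟨∅, Subgroup.closure_empty, Set.finite_empty⟩)
  refine ⟨fun h => h ⟨S⟩, 1, Or.inr ⟨S, fun v => ?_⟩⟩
  have : Subsingleton (MulAction.stabilizer (Multiplicative ℤ) v) := by
    rw [hS, hk]; infer_instance
  exact not_splitting_of_subsingleton

end Sanity

section ClassP

open Pool.Agent.Helper270.Tree Pool.Agent.Helper270.Aff

variable (K : Type) [Field K]

/-- The class of groups used in the proof: finitely generated groups `P` with a homomorphism
`p ↦ (lam p, b p)` to the affine group of the line over `K` such that the group of linear parts is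
cyclic and generated by a transcendental element, the kernel of `lam` is abelian and contains an
element with nonzero translation part. -/
def InP (P : Type) [Group P] : Prop :=
  Group.FG P ∧ ∃ (lam : P →* Kˣ) (b : P → K) (v : P), IsCocycle lam b ∧
    (∀ p, ∃ k : ℤ, lam p = lam v ^ k) ∧ Transcendental ℤ ((lam v : Kˣ) : K) ∧
    (∀ m m', lam m = 1 → lam m' = 1 → m * m' = m' * m) ∧ ∃ m, lam m = 1 ∧ b m ≠ 0

variable {K}

theorem transcendental_inv {u : K} (h : Transcendental ℤ u) : Transcendental ℤ u⁻¹ := by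
  intro h2
  exact h (by simpa using h2.inv)

theorem transcendental_zpow {u : Kˣ} (h : Transcendental ℤ (u : K)) {k : ℤ} (hk : k ≠ 0) :
    Transcendental ℤ ((u ^ k : Kˣ) : K) := by
  rcases lt_or_gt_of_ne hk with h1 | h1
  · have e : ((u ^ k : Kˣ) : K) = ((u : K) ^ (-k).toNat)⁻¹ := by
      rw [← Units.val_pow_eq_pow_val, ← Units.val_inv_eq_inv_val, ← zpow_natCast, ← zpow_neg]
      congr 2; omega
    rw [e]
    exact transcendental_inv (h.pow (by omega))
  · have e : ((u ^ k : Kˣ) : K) = (u : K) ^ k.toNat := by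
      rw [← Units.val_pow_eq_pow_val, ← zpow_natCast]
      congr 2; omega
    rw [e]
    exact h.pow (by omega)

theorem ne_one_of_transcendental {u : K} (h : Transcendental ℤ u) : u ≠ 1 := by
  rintro rfl
  exact h isAlgebraic_one

theorem ne_neg_one_of_transcendental {u : K} (h : Transcendental ℤ u) : u ≠ -1 := by
  rintro rfl
  exact h (isAlgebraic_one.neg)

/-- Every group of the class splits. -/
theorem InP.splits {P : Type} [Group P] (h : InP K P) : Nonempty (Splitting P) := by
  obtain ⟨hfg, lam, b, v, hco, hcyc, htr, hab, m, hm, hbm⟩ := h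
  have hu1 : (lam v : K) - 1 ≠ 0 := sub_ne_zero.mpr (ne_one_of_transcendental htr)
  set c : K := -(b v) / ((lam v : K) - 1) with hc
  let b' : P → K := fun p => b p + ((lam p : K) - 1) * c
  have hco' : IsCocycle lam b' := by
    intro p q
    simp only [b']
    rw [hco p q, map_mul, Units.val_mul]
    ring
  have hb'v : b' v = 0 := by
    simp only [b', hc]
    field_simp
    ring
  have hb'm : b' m ≠ 0 := by
    simp only [b', hm, Units.val_one, sub_self, zero_mul, add_zero]
    exact hbm
  obtain ⟨χ, hχv, hχ⟩ := exists_character hco' hfg v hb'v hcyc htr ⟨m, hb'm⟩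
  refine splits_of_character χ hχ ?_
  refine fg_ker hfg lam.ker inferInstance (fun m hm m' hm' => hab m m' hm hm') v ?_ χ hχv hχ
  intro p
  obtain ⟨k, hk⟩ := hcyc p
  refine ⟨k, ?_⟩
  rw [MonoidHom.mem_ker, map_mul, map_zpow, hk, ← zpow_add, add_neg_cancel, zpow_zero]

theorem Splitting.treeAct {P : Type} [Group P] (S : Splitting P) : TreeAct P S.T :=
  ⟨S.isTree, S.adj_smul, S.no_inversion⟩

/-- Criterion for a vertex stabiliser to be in the class. -/
theorem InP.of_subgroup {P : Type} [Group P] {lam : P →* Kˣ} {b : P → K} (hco : IsCocycle lam b)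
    {w : P} (H : Subgroup P) (hH : H.FG) (hcyc : ∀ p ∈ H, ∃ k : ℤ, lam p = lam w ^ k)
    (htr : Transcendental ℤ ((lam w : Kˣ) : K))
    (hab : ∀ m ∈ H, ∀ m' ∈ H, lam m = 1 → lam m' = 1 → m * m' = m' * m)
    (hm : ∃ m ∈ H, lam m = 1 ∧ b m ≠ 0) (hne : ∃ p ∈ H, lam p ≠ 1) : InP K H := by
  -- a generator of the group of linear parts
  let J : AddSubgroup ℤ :=
    { carrier := {k | ∃ p ∈ H, lam p = lam w ^ k}
      zero_mem' := ⟨1, H.one_mem, by simp⟩
      add_mem' := by
        rintro a a' ⟨p, hp, e⟩ ⟨p', hp', e'⟩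
        exact ⟨p * p', H.mul_mem hp hp', by rw [map_mul, e, e', zpow_add]⟩
      neg_mem' := by
        rintro a ⟨p, hp, e⟩
        exact ⟨p⁻¹, H.inv_mem hp, by rw [map_inv, e, zpow_neg]⟩ }
  obtain ⟨a, ha⟩ := Int.subgroup_cyclic J
  have haJ : a ∈ J := by rw [ha]; exact AddSubgroup.subset_closure rfl
  obtain ⟨w', hw'H, hw'⟩ := haJ
  have hgen : ∀ p ∈ H, ∃ k : ℤ, lam p = lam w' ^ k := by
    intro p hp
    obtain ⟨k, hk⟩ := hcyc p hp
    have hkJ : k ∈ J := ⟨p, hp, hk⟩
    rw [ha, AddSubgroup.mem_closure_singleton] at hkJ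
    obtain ⟨j, hj⟩ := hkJ
    refine ⟨j, ?_⟩
    rw [hk, hw', ← zpow_mul, ← hj, smul_eq_mul, mul_comm]
  have ha0 : a ≠ 0 := by
    rintro rfl
    obtain ⟨p, hp, hp1⟩ := hne
    obtain ⟨k, hk⟩ := hgen p hp
    rw [hw', zpow_zero, one_zpow] at hk
    exact hp1 hk
  refine ⟨(Group.fg_iff_subgroup_fg H).mpr hH, lam.comp H.subtype, fun p => b p, ⟨w', hw'H⟩,
    ?_, ?_, ?_, ?_, ?_⟩
  · intro p q
    exact hco p q
  · intro p
    exact hgen p p.2
  · change Transcendental ℤ ((lam w' : Kˣ) : K)
    rw [hw']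
    exact transcendental_zpow htr ha0
  · intro m m' hm1 hm1'
    exact Subtype.ext (hab m m.2 m' m'.2 hm1 hm1')
  · obtain ⟨m, hmH, hm1, hbm⟩ := hm
    exact ⟨⟨m, hmH⟩, hm1, hbm⟩

/-- The stabiliser of a vertex on an invariant line is finitely generated if the edge
stabilisers are. -/
theorem stab_fg_of_line {P : Type} [Group P] (S : Splitting P) {L : ℤ → S.V}
    (hL : IsLine S.T L)
    (hp : ∀ p : P, (∃ c, ∀ i, p • L i = L (c + i)) ∨ (∃ c, ∀ i, p • L i = L (c - i))) :
    (MulAction.stabilizer P (L 0)).FG := by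
  have hinj := hL.injective S.isTree
  set H := MulAction.stabilizer P (L 0) with hH
  set E := MulAction.stabilizer P (L 0) ⊓ MulAction.stabilizer P (L 1) with hE
  have hEfg : E.FG := by
    have := hL.adj 0
    rw [zero_add] at this
    exact S.edge_fg _ _ this
  have hcase : ∀ p ∈ H, p ∈ E ∨ ∀ i, p • L i = L (-i) := by
    intro p hpH
    rcases hp p with ⟨c, hc⟩ | ⟨c, hc⟩
    · left
      have h0 := hc 0
      rw [MulAction.mem_stabilizer_iff.mp hpH] at h0
      have hc0 : c = 0 := by have := hinj h0; omega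
      refine ⟨hpH, ?_⟩
      change p • L 1 = L 1
      rw [hc, hc0, zero_add]
    · right
      have h0 := hc 0
      rw [MulAction.mem_stabilizer_iff.mp hpH] at h0
      have hc0 : c = 0 := by have := hinj h0; omega
      intro i
      rw [hc, hc0, zero_sub]
  by_cases hr : ∃ r ∈ H, ∀ i, r • L i = L (-i)
  · obtain ⟨r, hrH, hr⟩ := hr
    have : H = E ⊔ Subgroup.zpowers r := by
      apply le_antisymm
      · intro p hpH
        rcases hcase p hpH with h | h
        · exact Subgroup.mem_sup_left h
        · have e1 : r⁻¹ * p ∈ E := by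
            refine ⟨?_, ?_⟩
            · change (r⁻¹ * p) • L 0 = L 0
              rw [mul_smul, h, inv_smul_eq_iff, hr]
            · change (r⁻¹ * p) • L 1 = L 1
              rw [mul_smul, h, inv_smul_eq_iff, hr]
          have e2 : p = r * (r⁻¹ * p) := by group
          rw [e2]
          exact Subgroup.mul_mem _ (Subgroup.mem_sup_right (Subgroup.mem_zpowers r))
            (Subgroup.mem_sup_left e1)
      · refine sup_le inf_le_left ?_
        rw [Subgroup.zpowers_le]; exact hrH
    rw [this]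
    exact hEfg.sup ⟨{r}, by rw [Finset.coe_singleton, Subgroup.zpowers_eq_closure]⟩
  · have : H = E := by
      apply le_antisymm
      · intro p hpH
        rcases hcase p hpH with h | h
        · exact h
        · exact absurd ⟨p, hpH, h⟩ hr
      · exact inf_le_left
    rw [this]; exact hEfg

/-- Every splitting of a group of the class has a vertex group in the class. -/
theorem InP.exists_vertex {P : Type} [Group P] (h : InP K P) (S : Splitting P) :
    ∃ v : S.V, InP K (MulAction.stabilizer P v) := by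
  obtain ⟨hfg, lam, b, w, hco, hcyc, htr, hab, m, hm, hbm⟩ := h
  have hT := S.treeAct
  have hnorm : lam.ker.Normal := inferInstance
  rcases hT.dichotomy hfg S.no_fixed_vertex hnorm (fun m hm m' hm' => hab m m' hm hm')
    (by
      intro p q
      rw [MonoidHom.mem_ker, map_mul, map_mul, map_mul, map_inv, map_inv, mul_comm (lam p),
        mul_assoc (lam q), mul_inv_cancel, mul_one, mul_inv_cancel]) with hA | hB
  · obtain ⟨L, hL, hp, hM, -⟩ := hA
    refine ⟨L 0, ?_⟩
    have hinj := hL.injective S.isTree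
    have hHfg := stab_fg_of_line S hL hp
    -- an element of the kernel which fixes the line and has nonzero translation part
    obtain ⟨c, hc⟩ := hM m hm
    have hfix : ∃ n, lam n = 1 ∧ b n ≠ 0 ∧ ∀ i, n • L i = L i := by
      rcases hp w with ⟨d, hd⟩ | ⟨d, hd⟩
      · refine ⟨(w * m * w⁻¹) * m⁻¹, ?_, ?_, ?_⟩
        · simp [hm]
        · have h1 : lam (w * m * w⁻¹) = 1 := by simp [hm]
          rw [hco.mul_ker h1, hco.conj hm, hco.inv, hm]
          have : (lam w : K) * b m + -(((1 : Kˣ) : K)⁻¹ * b m) = ((lam w : K) - 1) * b m := by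
            simp; ring
          rw [this]
          exact mul_ne_zero (sub_ne_zero.mpr (ne_one_of_transcendental htr)) hbm
        · intro i
          have h1 : m⁻¹ • L i = L (i - c) := by
            rw [inv_smul_eq_iff, hc]; congr 1; ring
          have h2 : w⁻¹ • L (i - c) = L (i - c - d) := by
            rw [inv_smul_eq_iff, hd]; congr 1; ring
          rw [mul_smul, mul_smul, mul_smul, h1, h2, hc, hd]
          congr 1; ring
      · refine ⟨(w * m * w⁻¹) * m, ?_, ?_, ?_⟩
        · simp [hm]
        · have h1 : lam (w * m * w⁻¹) = 1 := by simp [hm]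
          rw [hco.mul_ker h1, hco.conj hm]
          have : (lam w : K) * b m + b m = ((lam w : K) - (-1)) * b m := by ring
          rw [this]
          exact mul_ne_zero (sub_ne_zero.mpr (ne_neg_one_of_transcendental htr)) hbm
        · intro i
          have h2 : w⁻¹ • L (c + i) = L (d - (c + i)) := by
            rw [inv_smul_eq_iff, hd]; congr 1; ring
          rw [mul_smul, mul_smul, mul_smul, hc, h2, hc, hd]
          congr 1; ring
    obtain ⟨n, hn1, hbn, hnL⟩ := hfix
    refine InP.of_subgroup hco _ hHfg (fun p _ => hcyc p) htr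
      (fun m _ m' _ hm hm' => hab m m' hm hm') ⟨n, hnL 0, hn1, hbn⟩ ?_
    by_contra hcon
    push Not at hcon
    -- the edge group consists of translations
    set E := MulAction.stabilizer P (L 0) ⊓ MulAction.stabilizer P (L 1) with hE
    have hEfg : E.FG := by
      have := hL.adj 0
      rw [zero_add] at this
      exact S.edge_fg _ _ this
    have hEL : ∀ x ∈ E, ∀ i, x • L i = L i := by
      intro x hx i
      obtain ⟨c', hc'⟩ := hM x (hcon x hx.1)
      have h0 := hc' 0
      rw [MulAction.mem_stabilizer_iff.mp hx.1] at h0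
      have hc0 : c' = 0 := by have := hinj h0; omega
      rw [hc', hc0, zero_add]
    have hint := hco.integral E hEfg (fun x hx => hcon x hx.1) w (by
      intro x hx
      have hall : ∀ i, (w * x * w⁻¹) • L i = L i := by
        intro i
        rw [mul_smul, mul_smul]
        have hw' : ∃ j, w⁻¹ • L i = L j := by
          rcases hp w⁻¹ with ⟨d, hd⟩ | ⟨d, hd⟩
          · exact ⟨_, hd i⟩
          · exact ⟨_, hd i⟩
        obtain ⟨j, hj⟩ := hw'
        rw [hj, hEL x hx, ← hj, smul_inv_smul]
      exact ⟨hall 0, hall 1⟩) ⟨n, ⟨hnL 0, hnL 1⟩, hbn⟩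
    exact htr hint.isAlgebraic
  · exfalso
    obtain ⟨L, β, g, hL, hβ, hMβ, hg0, hgL⟩ := hB
    have hinj := hL.injective S.isTree
    have hray := fun (p : P) (j : ℤ) (hp : p • L j = L j) => hT.stab_ray hL hβ hp
    set H := MulAction.stabilizer P (L 0) with hH
    have hHE : H = MulAction.stabilizer P (L 0) ⊓ MulAction.stabilizer P (L 1) := by
      apply le_antisymm
      · intro p hp
        exact ⟨hp, (hray p 0 hp).2 1 (by omega)⟩
      · exact inf_le_left
    have hHfg : H.FG := by
      rw [hHE]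
      have := hL.adj 0
      rw [zero_add] at this
      exact S.edge_fg _ _ this
    have hdec : ∀ p, ∃ k : ℤ, lam p = lam w ^ k ∧ β p = β w ^ k := by
      intro p
      obtain ⟨k, hk⟩ := hcyc p
      refine ⟨k, hk, ?_⟩
      have h1 : p * w ^ (-k) ∈ lam.ker := by
        rw [MonoidHom.mem_ker, map_mul, map_zpow, hk, ← zpow_add, add_neg_cancel, zpow_zero]
      have h2 := hMβ h1
      rw [MonoidHom.mem_ker, map_mul, map_zpow, zpow_neg, mul_inv_eq_one] at h2
      exact h2
    have hβw : (β w).toAdd ≠ 0 := by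
      intro h0
      obtain ⟨k, _, hk⟩ := hdec g
      have : (β g).toAdd = k * (β w).toAdd := by rw [hk, toAdd_zpow, smul_eq_mul]
      rw [h0, mul_zero] at this
      omega
    have hHlam : ∀ p ∈ H, lam p = 1 := by
      intro p hp
      obtain ⟨k, hk1, hk2⟩ := hdec p
      have h1 := (hray p 0 hp).1
      have h2 : k * (β w).toAdd = 0 := by
        have := congrArg Multiplicative.toAdd (hk2.symm.trans h1)
        rwa [toAdd_zpow, toAdd_one, smul_eq_mul] at this
      have h3 : k = 0 := by
        rcases mul_eq_zero.mp h2 with h | h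
        · exact h
        · exact absurd h hβw
      rw [hk1, h3, zpow_zero]
    have hgpow : ∀ (k : ℕ) (i : ℤ), (g ^ k) • L i = L (i + k * (β g).toAdd) := by
      intro k
      induction k with
      | zero => intro i; simp
      | succ k ih =>
        intro i
        rw [pow_succ, mul_smul, hgL, ih]
        congr 1; push_cast; ring
    have hbH : ∃ n ∈ H, b n ≠ 0 := by
      obtain ⟨N, hN⟩ := hβ m
      have hβm : β m = 1 := hMβ hm
      set k : ℕ := N.toNat with hk
      have hfar : m • L (0 + k * (β g).toAdd) = L (0 + k * (β g).toAdd) := by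
        have := hN (0 + k * (β g).toAdd) (by nlinarith [Int.self_le_toNat N])
        rw [hβm] at this
        simpa using this
      refine ⟨(g ^ k)⁻¹ * m * g ^ k, ?_, ?_⟩
      · change ((g ^ k)⁻¹ * m * g ^ k) • L 0 = L 0
        rw [mul_smul, mul_smul, hgpow, hfar, ← hgpow, inv_smul_smul]
      · have e := hco.conj (p := (g ^ k)⁻¹) hm
        rw [inv_inv] at e
        rw [e]
        exact mul_ne_zero (Units.ne_zero _) hbm
    have hint := hco.integral H hHfg hHlam g⁻¹ (by
      intro n hn
      change (g⁻¹ * n * g⁻¹⁻¹) • L 0 = L 0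
      rw [inv_inv, mul_smul, mul_smul, inv_smul_eq_iff, hgL]
      exact (hray n 0 hn).2 _ (by omega)) hbH
    obtain ⟨k, hk1, hk2⟩ := hdec g
    have hk0 : k ≠ 0 := by
      rintro rfl
      rw [zpow_zero] at hk2
      rw [hk2] at hg0
      simp at hg0
    have htr2 : Transcendental ℤ ((lam g⁻¹ : Kˣ) : K) := by
      have : lam g⁻¹ = lam w ^ (-k) := by rw [map_inv, hk1, zpow_neg]
      rw [this]
      exact transcendental_zpow htr (by omega)
    exact htr2 hint.isAlgebraic

theorem InP.not_terminatesIn (n : ℕ) : ∀ (P : Type) [Group P], InP K P → ¬ TerminatesIn n P := by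
  induction n with
  | zero =>
    intro P _ hP h
    exact h hP.splits
  | succ n ih =>
    intro P _ hP h
    rcases h with h | ⟨S, hS⟩
    · exact h hP.splits
    · obtain ⟨v, hv⟩ := hP.exists_vertex S
      exact ih _ hv (hS v)

end ClassP

section Transcendence

open Polynomial

/-- Multiplicative independence of a transcendental element `x` and `1 + x`. -/
theorem transcendental_unit_field (k : Type) [Field k] {K : Type} [Field K] [Algebra k K] {x : K}
    (hx : Transcendental k x) (h0 : x ≠ 0) (h1 : 1 + x ≠ 0) {i j : ℤ} (hij : i ≠ 0 ∨ j ≠ 0) :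
    Transcendental k (x ^ i * (1 + x) ^ j) := by
  intro halg
  apply hx
  set w := x ^ i * (1 + x) ^ j with hw
  have hw0 : w ≠ 0 := mul_ne_zero (zpow_ne_zero _ h0) (zpow_ne_zero _ h1)
  let F := algebraicClosure k K
  have : Algebra.IsAlgebraic k F := algebraicClosure.isAlgebraic k K
  let wF : F := ⟨w, mem_algebraicClosure_iff.mpr halg⟩
  have hwF : wF ≠ 0 := fun h => hw0 (congrArg Subtype.val h)
  have key : IsAlgebraic F x := by
    refine ⟨X ^ i.toNat * (1 + X) ^ j.toNat -
      C wF * X ^ (-i).toNat * (1 + X) ^ (-j).toNat, ?_, ?_⟩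
    · intro hp
      rw [sub_eq_zero] at hp
      rcases lt_trichotomy i 0 with hi | hi | hi
      · have := congrArg (eval 0) hp
        simp only [eval_mul, eval_pow, eval_X, eval_add, eval_one, eval_C, add_zero,
          one_pow] at this
        rw [show i.toNat = 0 by omega, zero_pow (show (-i).toNat ≠ 0 by omega)] at this
        simp at this
      · subst hi
        rcases lt_trichotomy j 0 with hj | hj | hj
        · have := congrArg (eval (-1)) hp
          simp only [eval_mul, eval_pow, eval_X, eval_add, eval_one, eval_C,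
            add_neg_cancel] at this
          rw [show j.toNat = 0 by omega, zero_pow (show (-j).toNat ≠ 0 by omega)] at this
          simp at this
        · rcases hij with h | h
          · exact h rfl
          · exact h hj
        · have := congrArg (eval (-1)) hp
          simp only [eval_mul, eval_pow, eval_X, eval_add, eval_one, eval_C,
            add_neg_cancel] at this
          rw [show (-j).toNat = 0 by omega, zero_pow (show j.toNat ≠ 0 by omega)] at this
          simp at this
          exact hwF this.symm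
      · have := congrArg (eval 0) hp
        simp only [eval_mul, eval_pow, eval_X, eval_add, eval_one, eval_C, add_zero,
          one_pow] at this
        rw [show (-i).toNat = 0 by omega, zero_pow (show i.toNat ≠ 0 by omega)] at this
        simp at this
        exact hwF this.symm
    · simp only [map_sub, map_mul, map_pow, aeval_X, map_add, map_one, aeval_C]
      have e1 : (algebraMap F K) wF = w := rfl
      rw [e1, hw]
      have e2 : x ^ i.toNat = x ^ i * x ^ (-i).toNat := by
        rw [← zpow_natCast, ← zpow_natCast, ← zpow_add₀ h0]; congr 1; omega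
      have e3 : (1 + x) ^ j.toNat = (1 + x) ^ j * (1 + x) ^ (-j).toNat := by
        rw [← zpow_natCast, ← zpow_natCast, ← zpow_add₀ h1]; congr 1; omega
      rw [e2, e3]; ring
  exact key.restrictScalars k

theorem transcendental_unit {K : Type} [Field K] [CharZero K] {x : K}
    (hx : Transcendental ℤ x) (h0 : x ≠ 0) (h1 : 1 + x ≠ 0) {i j : ℤ} (hij : i ≠ 0 ∨ j ≠ 0) :
    Transcendental ℤ (x ^ i * (1 + x) ^ j) := by
  intro halg
  have hx' : Transcendental ℚ x := fun h => hx ((IsFractionRing.isAlgebraic_iff ℤ ℚ K).mpr h)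
  exact transcendental_unit_field ℚ hx' h0 h1 hij
    ((IsFractionRing.isAlgebraic_iff ℤ ℚ K).mp halg)

end Transcendence

section Baumslag

/-- The generators of the free group of rank three. -/
def ga : FreeGroup (Fin 3) := FreeGroup.of 0
def gs : FreeGroup (Fin 3) := FreeGroup.of 1
def gt : FreeGroup (Fin 3) := FreeGroup.of 2

/-- The relators `[s, t]`, `[a, s a s⁻¹]` and `(t a t⁻¹) (a s a s⁻¹)⁻¹`. -/
def rels : Set (FreeGroup (Fin 3)) :=
  {gs * gt * gs⁻¹ * gt⁻¹, ga * (gs * ga * gs⁻¹) * ga⁻¹ * (gs * ga * gs⁻¹)⁻¹,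
    gt * ga * gt⁻¹ * (ga * (gs * ga * gs⁻¹))⁻¹}

/-- Baumslag's finitely presented metabelian group
`⟨a, s, t | [s, t] = 1, [a, s a s⁻¹] = 1, t a t⁻¹ = a (s a s⁻¹)⟩`. -/
abbrev Gam : Type := PresentedGroup rels

theorem Gam_fp : Group.IsFinitelyPresented Gam := by
  refine ⟨3, PresentedGroup.mk rels, PresentedGroup.mk_surjective rels, rels, ?_, ?_⟩
  · unfold rels
    exact Set.toFinite _
  · exact (QuotientGroup.ker_mk' _).symm

theorem Gam_fg : Group.FG Gam := by
  refine Group.fg_iff.mpr ⟨Set.range PresentedGroup.of, PresentedGroup.closure_range_of rels,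
    Set.finite_range _⟩

def a : Gam := PresentedGroup.of 0
def s : Gam := PresentedGroup.of 1
def t : Gam := PresentedGroup.of 2

theorem st_comm : s * t = t * s := by
  have h := PresentedGroup.one_of_mem (rels := rels) (x := gs * gt * gs⁻¹ * gt⁻¹) (Or.inl rfl)
  have h' : s * t * s⁻¹ * t⁻¹ = 1 := h
  rw [mul_inv_eq_one, mul_inv_eq_iff_eq_mul] at h'
  exact h'

theorem a_comm : a * (s * a * s⁻¹) = (s * a * s⁻¹) * a := by
  have h := PresentedGroup.one_of_mem (rels := rels)
    (x := ga * (gs * ga * gs⁻¹) * ga⁻¹ * (gs * ga * gs⁻¹)⁻¹) (Or.inr (Or.inl rfl))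
  have h' : a * (s * a * s⁻¹) * a⁻¹ * (s * a * s⁻¹)⁻¹ = 1 := h
  rw [mul_inv_eq_one, mul_inv_eq_iff_eq_mul] at h'
  exact h'

theorem t_conj : t * a * t⁻¹ = a * (s * a * s⁻¹) := by
  have h := PresentedGroup.one_of_mem (rels := rels)
    (x := gt * ga * gt⁻¹ * (ga * (gs * ga * gs⁻¹))⁻¹) (Or.inr (Or.inr rfl))
  have h' : t * a * t⁻¹ * (a * (s * a * s⁻¹))⁻¹ = 1 := h
  rw [mul_inv_eq_one] at h'
  exact h'

/-- The conjugates `a_i = s^i a s^(-i)`. -/
def ai (i : ℤ) : Gam := s ^ i * a * s ^ (-i)

theorem s_conj_ai (k i : ℤ) : s ^ k * ai i * s ^ (-k) = ai (i + k) := by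
  simp only [ai]
  rw [show i + k = k + i from add_comm _ _, zpow_add, neg_add_rev, zpow_add]
  group

theorem t_zpow_comm (i : ℤ) : t * s ^ i = s ^ i * t := by
  have h : Commute t s := st_comm.symm
  exact h.zpow_right i

theorem t_conj_ai (i : ℤ) : t * ai i * t⁻¹ = ai i * ai (i + 1) := by
  have h1 : t * ai i * t⁻¹ = s ^ i * (t * a * t⁻¹) * s ^ (-i) := by
    simp only [ai]
    have e1 : s ^ (-i) * t⁻¹ = t⁻¹ * s ^ (-i) := by
      rw [eq_inv_mul_iff_mul_eq, ← mul_assoc, t_zpow_comm]
      group
    calc t * (s ^ i * a * s ^ (-i)) * t⁻¹ = (t * s ^ i) * a * (s ^ (-i) * t⁻¹) := by group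
      _ = (s ^ i * t) * a * (t⁻¹ * s ^ (-i)) := by rw [t_zpow_comm, e1]
      _ = s ^ i * (t * a * t⁻¹) * s ^ (-i) := by group
  rw [h1, t_conj]
  simp only [ai]
  rw [show -(i + 1) = -1 + -i from by ring, zpow_add, zpow_add, zpow_neg_one, zpow_one]
  group

theorem ai_comm_nat (n : ℕ) : ∀ k ≤ n, ∀ i : ℤ, Commute (ai i) (ai (i + k)) := by
  induction n with
  | zero =>
    intro k hk i
    have : k = 0 := by omega
    subst this
    simp
  | succ n ih =>
    intro k hk i
    rcases Nat.lt_or_ge k (n + 1) with h | h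
    · exact ih k (by omega) i
    have hk : k = n + 1 := by omega
    subst hk
    rcases Nat.eq_zero_or_pos n with hn | hn
    · subst hn
      have h0 : Commute (ai 0) (ai 1) := by
        have : ai 0 = a := by simp [ai]
        rw [this]
        have : ai 1 = s * a * s⁻¹ := by simp [ai]
        rw [this]
        exact a_comm
      have h1 := s_conj_ai i 0
      have h2 := s_conj_ai i 1
      rw [zero_add] at h1
      have h3 : Commute (s ^ i * ai 0 * (s ^ i)⁻¹) (s ^ i * ai 1 * (s ^ i)⁻¹) := by
        rw [← MulAut.conj_apply, ← MulAut.conj_apply]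
        exact h0.map _
      rw [← zpow_neg, h1, h2] at h3
      rw [show i + ((0 + 1 : ℕ) : ℤ) = 1 + i from by push_cast; ring]
      exact h3
    · have hXZ : Commute (ai i) (ai (i + n)) := ih n le_rfl i
      have hYZ : Commute (ai (i + 1)) (ai (i + n)) := by
        have := ih (n - 1) (by omega) (i + 1)
        rwa [show i + 1 + ((n - 1 : ℕ) : ℤ) = i + n from by omega] at this
      have hYW : Commute (ai (i + 1)) (ai (i + n + 1)) := by
        have := ih n le_rfl (i + 1)
        rwa [show i + 1 + (n : ℤ) = i + n + 1 from by ring] at this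
      have hT : Commute (t * ai i * t⁻¹) (t * ai (i + n) * t⁻¹) := by
        rw [← MulAut.conj_apply, ← MulAut.conj_apply]
        exact hXZ.map _
      rw [t_conj_ai, t_conj_ai] at hT
      rw [show i + ((n + 1 : ℕ) : ℤ) = i + n + 1 from by push_cast; ring]
      generalize ai i = X at *
      generalize ai (i + 1) = Y at *
      generalize ai (i + n) = Z at *
      generalize ai (i + n + 1) = W at *
      have h1 : X * Y * (Z * W) = Z * W * (X * Y) := hT
      have h2 : X * Y * (Z * W) = Z * (X * W) * Y := by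
        calc X * Y * (Z * W) = X * (Y * Z) * W := by group
          _ = X * (Z * Y) * W := by rw [hYZ.eq]
          _ = (X * Z) * (Y * W) := by group
          _ = (Z * X) * (W * Y) := by rw [hXZ.eq, hYW.eq]
          _ = Z * (X * W) * Y := by group
      have h3 : Z * W * (X * Y) = Z * (W * X) * Y := by group
      rw [h2, h3] at h1
      exact mul_left_cancel (mul_right_cancel h1)

theorem ai_comm (i j : ℤ) : ai i * ai j = ai j * ai i := by
  rcases le_total i j with h | h
  · have := ai_comm_nat (j - i).toNat _ le_rfl i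
    rw [show i + ((j - i).toNat : ℤ) = j from by omega] at this
    exact this
  · have := ai_comm_nat (i - j).toNat _ le_rfl j
    rw [show j + ((i - j).toNat : ℤ) = i from by omega] at this
    exact this.symm

/-- The subgroup generated by the `a_i`. -/
def A0 : Subgroup Gam := Subgroup.closure (Set.range ai)

theorem A0_comm : ∀ x ∈ A0, ∀ y ∈ A0, x * y = y * x := by
  have h1 : ∀ x ∈ A0, ∀ j, Commute x (ai j) := by
    intro x hx j
    induction hx using Subgroup.closure_induction with
    | mem x hx => obtain ⟨i, rfl⟩ := hx; exact ai_comm i j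
    | one => exact Commute.one_left _
    | mul x y _ _ hx hy => exact hx.mul_left hy
    | inv x _ hx => exact hx.inv_left
  intro x hx y hy
  have h2 : Commute x y := by
    induction hy using Subgroup.closure_induction with
    | mem y hy => obtain ⟨i, rfl⟩ := hy; exact h1 x hx i
    | one => exact Commute.one_right _
    | mul y z _ _ hy hz => exact hy.mul_right hz
    | inv y _ hy => exact hy.inv_right
  exact h2

theorem A0_s (k : ℤ) : ∀ x ∈ A0, s ^ k * x * s ^ (-k) ∈ A0 := by
  intro x hx
  rw [zpow_neg]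
  induction hx using Subgroup.closure_induction with
  | mem x hx =>
    obtain ⟨i, rfl⟩ := hx
    have := s_conj_ai k i
    rw [zpow_neg] at this
    rw [this]; exact Subgroup.subset_closure ⟨_, rfl⟩
  | one => simp
  | mul x y _ _ hx hy =>
    have := A0.mul_mem hx hy
    rwa [show s ^ k * x * (s ^ k)⁻¹ * (s ^ k * y * (s ^ k)⁻¹) = s ^ k * (x * y) * (s ^ k)⁻¹ from
      by group] at this
  | inv x _ hx =>
    have := A0.inv_mem hx
    rwa [show (s ^ k * x * (s ^ k)⁻¹)⁻¹ = s ^ k * x⁻¹ * (s ^ k)⁻¹ from by group] at this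

theorem A0_t : ∀ x ∈ A0, t * x * t⁻¹ ∈ A0 := by
  intro x hx
  induction hx using Subgroup.closure_induction with
  | mem x hx =>
    obtain ⟨i, rfl⟩ := hx
    rw [t_conj_ai]
    exact A0.mul_mem (Subgroup.subset_closure ⟨_, rfl⟩) (Subgroup.subset_closure ⟨_, rfl⟩)
  | one => simp
  | mul x y _ _ hx hy =>
    have := A0.mul_mem hx hy
    rwa [show t * x * t⁻¹ * (t * y * t⁻¹) = t * (x * y) * t⁻¹ from by group] at this
  | inv x _ hx =>
    have := A0.inv_mem hx
    rwa [show (t * x * t⁻¹)⁻¹ = t * x⁻¹ * t⁻¹ from by group] at this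

/-- The abelian normal subgroup: elements conjugated into `A0` by high powers of `t`. -/
def M1 : Subgroup Gam where
  carrier := {y | ∃ n0 : ℕ, ∀ n : ℕ, n0 ≤ n → t ^ n * y * (t ^ n)⁻¹ ∈ A0}
  one_mem' := ⟨0, fun n _ => by simp⟩
  mul_mem' := by
    rintro x y ⟨n1, h1⟩ ⟨n2, h2⟩
    refine ⟨max n1 n2, fun n hn => ?_⟩
    have := A0.mul_mem (h1 n (le_trans (le_max_left _ _) hn)) (h2 n (le_trans (le_max_right _ _) hn))
    rwa [show t ^ n * x * (t ^ n)⁻¹ * (t ^ n * y * (t ^ n)⁻¹) = t ^ n * (x * y) * (t ^ n)⁻¹ from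
      by group] at this
  inv_mem' := by
    rintro x ⟨n1, h1⟩
    refine ⟨n1, fun n hn => ?_⟩
    have := A0.inv_mem (h1 n hn)
    rwa [show (t ^ n * x * (t ^ n)⁻¹)⁻¹ = t ^ n * x⁻¹ * (t ^ n)⁻¹ from by group] at this

theorem M1_comm : ∀ x ∈ M1, ∀ y ∈ M1, x * y = y * x := by
  rintro x ⟨n1, h1⟩ y ⟨n2, h2⟩
  have h := A0_comm _ (h1 (max n1 n2) (le_max_left _ _)) _ (h2 (max n1 n2) (le_max_right _ _))
  generalize t ^ (max n1 n2) = u at h
  have h3 : u * (x * y) * u⁻¹ = u * (y * x) * u⁻¹ := by
    calc u * (x * y) * u⁻¹ = u * x * u⁻¹ * (u * y * u⁻¹) := by group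
      _ = u * y * u⁻¹ * (u * x * u⁻¹) := h
      _ = u * (y * x) * u⁻¹ := by group
  exact mul_left_cancel (mul_right_cancel h3)

theorem A0_le_M1 : A0 ≤ M1 := by
  intro x hx
  refine ⟨0, fun n hn => ?_⟩
  clear hn
  induction n with
  | zero => simpa using hx
  | succ n ih =>
    have := A0_t _ ih
    rwa [show t * (t ^ n * x * (t ^ n)⁻¹) * t⁻¹ = t ^ (n + 1) * x * (t ^ (n + 1))⁻¹ from by
      rw [pow_succ']; group] at this

theorem a_mem_A0 : a ∈ A0 := Subgroup.subset_closure ⟨0, by simp [ai]⟩

theorem a_mem : a ∈ M1 := A0_le_M1 a_mem_A0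

theorem M1_s (k : ℤ) : ∀ x ∈ M1, s ^ k * x * (s ^ k)⁻¹ ∈ M1 := by
  rintro x ⟨n0, h0⟩
  refine ⟨n0, fun n hn => ?_⟩
  have h1 := A0_s k _ (h0 n hn)
  have hc : Commute (s ^ k) (t ^ n) := (Commute.zpow_left st_comm k).pow_right n
  have h2 : s ^ k * (t ^ n * x * (t ^ n)⁻¹) * s ^ (-k) =
      t ^ n * (s ^ k * x * (s ^ k)⁻¹) * (t ^ n)⁻¹ := by
    have h3 : (t ^ n)⁻¹ * s ^ (-k) = (s ^ k)⁻¹ * (t ^ n)⁻¹ := by
      rw [zpow_neg, ← mul_inv_rev, ← mul_inv_rev, hc.eq]
    calc s ^ k * (t ^ n * x * (t ^ n)⁻¹) * s ^ (-k)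
        = (s ^ k * t ^ n) * x * ((t ^ n)⁻¹ * s ^ (-k)) := by group
      _ = (t ^ n * s ^ k) * x * ((s ^ k)⁻¹ * (t ^ n)⁻¹) := by rw [hc.eq, h3]
      _ = _ := by group
  rwa [h2] at h1

theorem M1_t : ∀ x ∈ M1, t * x * t⁻¹ ∈ M1 := by
  rintro x ⟨n0, h0⟩
  refine ⟨n0, fun n hn => ?_⟩
  have := h0 (n + 1) (by omega)
  rwa [show t ^ (n + 1) * x * (t ^ (n + 1))⁻¹ = t ^ n * (t * x * t⁻¹) * (t ^ n)⁻¹ from by
    rw [pow_succ]; group] at this

theorem M1_tinv : ∀ x ∈ M1, t⁻¹ * x * t ∈ M1 := by
  rintro x ⟨n0, h0⟩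
  refine ⟨n0 + 1, fun n hn => ?_⟩
  obtain ⟨k, rfl⟩ : ∃ k, n = k + 1 := ⟨n - 1, by omega⟩
  have := h0 k (by omega)
  rwa [show t ^ k * x * (t ^ k)⁻¹ = t ^ (k + 1) * (t⁻¹ * x * t) * (t ^ (k + 1))⁻¹ from by
    rw [pow_succ]; group] at this

theorem M1_normal : M1.Normal := by
  rw [← Subgroup.normalizer_eq_top_iff, ← top_le_iff,
    ← PresentedGroup.closure_range_of rels, Subgroup.closure_le]
  rintro _ ⟨i, rfl⟩
  have hs : ∀ x, x ∈ M1 ↔ s * x * s⁻¹ ∈ M1 := by
    intro x
    constructor
    · intro hx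
      have := M1_s 1 x hx
      rwa [zpow_one] at this
    · intro hx
      have := M1_s (-1) _ hx
      rw [zpow_neg_one, inv_inv] at this
      rwa [show s⁻¹ * (s * x * s⁻¹) * s = x from by group] at this
  have ht : ∀ x, x ∈ M1 ↔ t * x * t⁻¹ ∈ M1 := by
    intro x
    constructor
    · exact M1_t x
    · intro hx
      have := M1_tinv _ hx
      rwa [show t⁻¹ * (t * x * t⁻¹) * t = x from by group] at this
  fin_cases i
  · exact Subgroup.le_normalizer a_mem
  · exact Subgroup.mem_normalizer_iff.mpr hs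
  · exact Subgroup.mem_normalizer_iff.mpr ht

/-- Normal form `m s^i t^j`. -/
theorem normal_form (g : Gam) : ∃ m ∈ M1, ∃ i j : ℤ, g = m * s ^ i * t ^ j := by
  have hst : ∀ i j : ℤ, s ^ i * t ^ j = t ^ j * s ^ i := fun i j =>
    (Commute.zpow_left st_comm i).zpow_right j
  have hg : g ∈ Subgroup.closure (Set.range (PresentedGroup.of (rels := rels))) := by
    rw [PresentedGroup.closure_range_of]; trivial
  have hN := M1_normal
  induction hg using Subgroup.closure_induction with
  | mem x hx =>
    obtain ⟨i, rfl⟩ := hx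
    fin_cases i
    · exact ⟨a, a_mem, 0, 0, by simp [a]⟩
    · exact ⟨1, M1.one_mem, 1, 0, by simp [s]⟩
    · exact ⟨1, M1.one_mem, 0, 1, by simp [t]⟩
  | one => exact ⟨1, M1.one_mem, 0, 0, by simp⟩
  | mul x y _ _ hx hy =>
    obtain ⟨m, hm, i, j, rfl⟩ := hx
    obtain ⟨m', hm', i', j', rfl⟩ := hy
    refine ⟨m * ((s ^ i * t ^ j) * m' * (s ^ i * t ^ j)⁻¹),
      M1.mul_mem hm (hN.conj_mem m' hm' _), i + i', j + j', ?_⟩
    have e : s ^ (i + i') * t ^ (j + j') = s ^ i * t ^ j * s ^ i' * t ^ j' := by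
      rw [zpow_add, zpow_add]
      calc s ^ i * s ^ i' * (t ^ j * t ^ j') = s ^ i * (s ^ i' * t ^ j) * t ^ j' := by group
        _ = s ^ i * (t ^ j * s ^ i') * t ^ j' := by rw [hst]
        _ = _ := by group
    rw [mul_assoc _ (s ^ (i + i')), e]
    group
  | inv x _ hx =>
    obtain ⟨m, hm, i, j, rfl⟩ := hx
    refine ⟨(s ^ i * t ^ j)⁻¹ * m⁻¹ * (s ^ i * t ^ j), ?_, -i, -j, ?_⟩
    · have := hN.conj_mem m⁻¹ (M1.inv_mem hm) (s ^ i * t ^ j)⁻¹
      rwa [inv_inv] at this
    · rw [mul_assoc _ (s ^ (-i)), hst, zpow_neg, zpow_neg]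
      group
      rw [hst]


section Splits

/-- The element `u = s t`. -/
def u : Gam := s * t

/-- The kernel of the character `a ↦ 0, s ↦ 1, t ↦ -1`. -/
def K0 : Subgroup Gam := Subgroup.closure {a, s * a * s⁻¹, u}

theorem su_comm : s * u = u * s := by
  simp only [u]
  rw [mul_assoc s t s, ← st_comm]

theorem a_K0 : a ∈ K0 := Subgroup.subset_closure (Or.inl rfl)
theorem a1_K0 : s * a * s⁻¹ ∈ K0 := Subgroup.subset_closure (Or.inr (Or.inl rfl))
theorem u_K0 : u ∈ K0 := Subgroup.subset_closure (Or.inr (Or.inr rfl))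

theorem u_conj_ai (i : ℤ) : u * ai i * u⁻¹ = ai (i + 1) * ai (i + 2) := by
  have h1 : u * ai i * u⁻¹ = s * (t * ai i * t⁻¹) * s⁻¹ := by simp only [u]; group
  have h2 := s_conj_ai 1 i
  have h3 := s_conj_ai 1 (i + 1)
  rw [zpow_neg, zpow_one] at h2 h3
  rw [h1, t_conj_ai, show i + 2 = i + 1 + 1 from by ring, ← h2, ← h3, ← h2]
  group

theorem K0_conj_s (k : Gam) (hk : k ∈ K0) : s * k * s⁻¹ ∈ K0 := by
  induction hk using Subgroup.closure_induction with
  | mem x hx =>
    rcases hx with rfl | rfl | rfl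
    · exact a1_K0
    · have h0 : ai 0 = a := by simp [ai]
      have h1 : ai 1 = s * a * s⁻¹ := by simp [ai]
      have h2 : ai 2 = s * (s * a * s⁻¹) * s⁻¹ := by
        have := s_conj_ai 1 1
        rw [zpow_neg, zpow_one, h1] at this
        rw [this]; rfl
      have h3 := u_conj_ai 0
      rw [zero_add, zero_add, h0] at h3
      have h4 : s * (s * a * s⁻¹) * s⁻¹ = (ai 1)⁻¹ * (u * a * u⁻¹) := by
        rw [h3, ← h2]; group
      rw [h4, h1]
      exact K0.mul_mem (K0.inv_mem a1_K0) (K0.mul_mem (K0.mul_mem u_K0 a_K0) (K0.inv_mem u_K0))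
    · rw [su_comm, mul_inv_cancel_right]; exact u_K0
  | one => simp
  | mul x y _ _ hx hy =>
    have := K0.mul_mem hx hy
    rwa [show s * x * s⁻¹ * (s * y * s⁻¹) = s * (x * y) * s⁻¹ from by group] at this
  | inv x _ hx =>
    have := K0.inv_mem hx
    rwa [show (s * x * s⁻¹)⁻¹ = s * x⁻¹ * s⁻¹ from by group] at this

theorem K0_conj_sinv (k : Gam) (hk : k ∈ K0) : s⁻¹ * k * s ∈ K0 := by
  induction hk using Subgroup.closure_induction with
  | mem x hx =>
    rcases hx with rfl | rfl | rfl
    · have h0 : ai 0 = a := by simp [ai]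
      have h1 : ai 1 = s * a * s⁻¹ := by simp [ai]
      have h2 : ai (-1) = s⁻¹ * a * s := by simp [ai]
      have h3 := u_conj_ai (-1)
      rw [show (-1 : ℤ) + 1 = 0 from rfl, show (-1 : ℤ) + 2 = 1 from rfl, h0] at h3
      have h4 : s⁻¹ * a * s = u⁻¹ * (a * ai 1) * u := by
        rw [← h3, ← h2]; group
      rw [h4, h1]
      exact K0.mul_mem (K0.mul_mem (K0.inv_mem u_K0) (K0.mul_mem a_K0 a1_K0)) u_K0
    · have : s⁻¹ * (s * a * s⁻¹) * s = a := by group
      rw [this]; exact a_K0
    · rw [mul_assoc, ← su_comm, inv_mul_cancel_left]; exact u_K0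
  | one => simp
  | mul x y _ _ hx hy =>
    have := K0.mul_mem hx hy
    rwa [show s⁻¹ * x * s * (s⁻¹ * y * s) = s⁻¹ * (x * y) * s from by group] at this
  | inv x _ hx =>
    have := K0.inv_mem hx
    rwa [show (s⁻¹ * x * s)⁻¹ = s⁻¹ * x⁻¹ * s from by group] at this

theorem K0_normal : K0.Normal := by
  have hs : s ∈ Subgroup.normalizer (K0 : Set Gam) := by
    rw [Subgroup.mem_normalizer_iff]
    intro x
    constructor
    · exact K0_conj_s x
    · intro hx
      have := K0_conj_sinv _ hx
      rwa [show s⁻¹ * (s * x * s⁻¹) * s = x from by group] at this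
  rw [← Subgroup.normalizer_eq_top_iff, ← top_le_iff,
    ← PresentedGroup.closure_range_of rels, Subgroup.closure_le]
  rintro _ ⟨i, rfl⟩
  fin_cases i
  · exact Subgroup.le_normalizer a_K0
  · exact hs
  · have : t = s⁻¹ * u := by simp only [u]; group
    change t ∈ Subgroup.normalizer (K0 : Set Gam)
    rw [this]
    exact mul_mem (inv_mem hs) (Subgroup.le_normalizer u_K0)

theorem M1_le_K0 : M1 ≤ K0 := by
  have hN := K0_normal
  have h0 : A0 ≤ K0 := by
    rw [A0, Subgroup.closure_le]
    rintro _ ⟨i, rfl⟩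
    simp only [ai]
    rw [zpow_neg]
    exact hN.conj_mem a a_K0 (s ^ i)
  rintro x ⟨n0, hx⟩
  have h1 := h0 (hx n0 le_rfl)
  have h2 := hN.conj_mem _ h1 (t ^ n0)⁻¹
  rwa [inv_inv, show (t ^ n0)⁻¹ * (t ^ n0 * x * (t ^ n0)⁻¹) * t ^ n0 = x from by group] at h2

/-- The values of the character on the generators. -/
def chiGen : Fin 3 → Multiplicative ℤ := ![1, Multiplicative.ofAdd 1, Multiplicative.ofAdd (-1)]

theorem chi_rels : ∀ r ∈ rels, FreeGroup.lift chiGen r = 1 := by
  rintro r (rfl | rfl | rfl) <;> simp [ga, gs, gt, chiGen]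

/-- The character `a ↦ 0, s ↦ 1, t ↦ -1`. -/
def chi : Gam →* Multiplicative ℤ := PresentedGroup.toGroup chi_rels

theorem chi_a : chi a = 1 := by
  simp [chi, a, PresentedGroup.toGroup.of, chiGen]

theorem chi_s : chi s = Multiplicative.ofAdd 1 := by
  simp [chi, s, PresentedGroup.toGroup.of, chiGen]

theorem chi_t : chi t = Multiplicative.ofAdd (-1) := by
  simp [chi, t, PresentedGroup.toGroup.of, chiGen]

theorem K0_le : K0 ≤ chi.ker := by
  rw [K0, Subgroup.closure_le]
  rintro _ (rfl | rfl | rfl)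
  · exact chi_a
  · change chi (s * a * s⁻¹) = 1
    simp [chi_a]
  · change chi (s * t) = 1
    rw [map_mul, chi_s, chi_t]; rfl

theorem ker_le_K0 : chi.ker ≤ K0 := by
  intro g hg
  obtain ⟨m, hm, i, j, rfl⟩ := normal_form g
  have hm0 := M1_le_K0 hm
  have hst : Commute s u := su_comm
  have hij : i = j := by
    rw [MonoidHom.mem_ker, map_mul, map_mul, MonoidHom.mem_ker.mp (K0_le hm0), one_mul,
      map_zpow, map_zpow, chi_s, chi_t] at hg
    have := congrArg Multiplicative.toAdd hg
    simp only [toAdd_mul, toAdd_zpow, toAdd_ofAdd, toAdd_one, smul_eq_mul] at this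
    omega
  subst hij
  have e : s ^ i * t ^ i = u ^ i := by
    have hc : Commute s t := st_comm
    rw [u, hc.mul_zpow]
  rw [mul_assoc, e]
  exact K0.mul_mem hm0 (K0.zpow_mem u_K0 i)

/-- The group splits over a finitely generated subgroup. -/
theorem Gam_splits : Nonempty (Splitting Gam) := by
  refine splits_of_character chi ?_ ?_
  · intro h
    have := chi_s
    rw [h] at this
    have h2 := congrArg Multiplicative.toAdd this
    simp at h2
  · rw [le_antisymm ker_le_K0 K0_le]
    exact (Subgroup.fg_iff K0).mpr ⟨{a, s * a * s⁻¹, u}, rfl, Set.toFinite _⟩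

end Splits

section AffineRep

open Pool.Agent.Helper270.Tree Pool.Agent.Helper270.Aff

variable {K : Type} [Field K] {x : K}

/-- The images of the generators in the affine group of the line. -/
def affGen (h0 : x ≠ 0) (h1 : 1 + x ≠ 0) : Fin 3 → Equiv.Perm K :=
  ![Equiv.addRight 1, Equiv.mulLeft₀ x h0, Equiv.mulLeft₀ (1 + x) h1]

theorem aff_rels (h0 : x ≠ 0) (h1 : 1 + x ≠ 0) :
    ∀ r ∈ rels, FreeGroup.lift (affGen h0 h1) r = 1 := by
  rintro r (rfl | rfl | rfl)
  · simp only [ga, gs, gt, map_mul, map_inv, FreeGroup.lift_apply_of]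
    rw [mul_inv_eq_one, mul_inv_eq_iff_eq_mul]
    ext y
    simp [affGen, Equiv.Perm.mul_apply]
    ring
  · simp only [ga, gs, gt, map_mul, map_inv, FreeGroup.lift_apply_of]
    rw [mul_inv_eq_one, mul_inv_eq_iff_eq_mul]
    ext y
    simp [affGen, Equiv.Perm.mul_apply, Equiv.Perm.inv_def]
    field_simp
    ring
  · simp only [ga, gs, gt, map_mul, map_inv, FreeGroup.lift_apply_of]
    rw [mul_inv_eq_one]
    ext y
    simp [affGen, Equiv.Perm.mul_apply, Equiv.Perm.inv_def]
    field_simp
    ring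

/-- The affine representation. -/
def aff (h0 : x ≠ 0) (h1 : 1 + x ≠ 0) : Gam →* Equiv.Perm K :=
  PresentedGroup.toGroup (aff_rels h0 h1)

/-- The linear parts of the generators. -/
def lamGen (h0 : x ≠ 0) (h1 : 1 + x ≠ 0) : Fin 3 → Kˣ :=
  ![1, Units.mk0 x h0, Units.mk0 (1 + x) h1]

theorem lam_rels (h0 : x ≠ 0) (h1 : 1 + x ≠ 0) :
    ∀ r ∈ rels, FreeGroup.lift (lamGen h0 h1) r = 1 := by
  rintro r (rfl | rfl | rfl)
  · simp only [ga, gs, gt, map_mul, map_inv, FreeGroup.lift_apply_of]
    rw [mul_inv_eq_one, mul_inv_eq_iff_eq_mul, mul_comm]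
  · simp [ga, gs, gt, lamGen]
  · simp [ga, gs, gt, lamGen]

/-- The linear part of the affine representation. -/
def lam (h0 : x ≠ 0) (h1 : 1 + x ≠ 0) : Gam →* Kˣ :=
  PresentedGroup.toGroup (lam_rels h0 h1)

theorem lam_a (h0 : x ≠ 0) (h1 : 1 + x ≠ 0) : lam h0 h1 a = 1 := by
  simp [lam, a, PresentedGroup.toGroup.of, lamGen]

theorem lam_s (h0 : x ≠ 0) (h1 : 1 + x ≠ 0) : lam h0 h1 s = Units.mk0 x h0 := by
  simp [lam, s, PresentedGroup.toGroup.of, lamGen]

theorem lam_t (h0 : x ≠ 0) (h1 : 1 + x ≠ 0) : lam h0 h1 t = Units.mk0 (1 + x) h1 := by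
  simp [lam, t, PresentedGroup.toGroup.of, lamGen]

/-- The translation part of the affine representation. -/
def bco (h0 : x ≠ 0) (h1 : 1 + x ≠ 0) (g : Gam) : K := aff h0 h1 g 0

theorem aff_apply (h0 : x ≠ 0) (h1 : 1 + x ≠ 0) (g : Gam) :
    ∀ y, aff h0 h1 g y = (lam h0 h1 g : K) * y + bco h0 h1 g := by
  have hg : g ∈ Subgroup.closure (Set.range (PresentedGroup.of (rels := rels))) := by
    rw [PresentedGroup.closure_range_of]; trivial
  induction hg using Subgroup.closure_induction with
  | mem z hz =>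
    obtain ⟨i, rfl⟩ := hz
    intro y
    fin_cases i
    · simp [aff, lam, bco, PresentedGroup.toGroup.of, affGen, lamGen]
    · simp [aff, lam, bco, PresentedGroup.toGroup.of, affGen, lamGen]
    · simp [aff, lam, bco, PresentedGroup.toGroup.of, affGen, lamGen]
  | one => intro y; simp [bco]
  | mul p q _ _ hp hq =>
    intro y
    simp only [bco, map_mul, Equiv.Perm.mul_apply, Units.val_mul]
    rw [hp, hq, hp (aff h0 h1 q 0)]
    simp only [bco]
    ring
  | inv p _ hp =>
    intro y
    have h2 : ∀ y, aff h0 h1 p⁻¹ y = ((lam h0 h1 p : K))⁻¹ * (y - bco h0 h1 p) := by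
      intro y
      rw [map_inv, Equiv.Perm.inv_eq_iff_eq, hp]
      have : (lam h0 h1 p : K) ≠ 0 := Units.ne_zero _
      field_simp
      ring
    simp only [bco]
    rw [h2, h2, map_inv, Units.val_inv_eq_inv_val]
    ring

theorem isCocycle_bco (h0 : x ≠ 0) (h1 : 1 + x ≠ 0) : IsCocycle (lam h0 h1) (bco h0 h1) := by
  intro p q
  have : bco h0 h1 (p * q) = aff h0 h1 p (bco h0 h1 q) := by
    simp only [bco, map_mul, Equiv.Perm.mul_apply]
  rw [this, aff_apply]
  ring

theorem bco_a (h0 : x ≠ 0) (h1 : 1 + x ≠ 0) : bco h0 h1 a = 1 := by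
  simp [bco, aff, a, PresentedGroup.toGroup.of, affGen]

theorem M1_le_ker (h0 : x ≠ 0) (h1 : 1 + x ≠ 0) : M1 ≤ (lam h0 h1).ker := by
  have hA : A0 ≤ (lam h0 h1).ker := by
    rw [A0, Subgroup.closure_le]
    rintro _ ⟨i, rfl⟩
    change lam h0 h1 (ai i) = 1
    simp [ai, lam_a]
  rintro y ⟨n0, hy⟩
  have := hA (hy n0 le_rfl)
  rw [MonoidHom.mem_ker] at this ⊢
  rw [map_mul, map_mul, map_inv, mul_comm (lam h0 h1 (t ^ n0)), mul_inv_cancel_right] at this
  exact this

theorem lam_st (h0 : x ≠ 0) (h1 : 1 + x ≠ 0) (i j : ℤ) :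
    ((lam h0 h1 (s ^ i * t ^ j) : Kˣ) : K) = x ^ i * (1 + x) ^ j := by
  rw [map_mul, map_zpow, map_zpow, lam_s, lam_t]
  simp

theorem ker_le_M1 [CharZero K] (hx : Transcendental ℤ x) (h0 : x ≠ 0) (h1 : 1 + x ≠ 0) :
    (lam h0 h1).ker ≤ M1 := by
  intro g hg
  obtain ⟨m, hm, i, j, rfl⟩ := normal_form g
  rw [MonoidHom.mem_ker, mul_assoc, map_mul, MonoidHom.mem_ker.mp (M1_le_ker h0 h1 hm),
    one_mul] at hg
  have h2 := lam_st h0 h1 i j
  rw [hg, Units.val_one] at h2
  by_cases hij : i ≠ 0 ∨ j ≠ 0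
  · have := transcendental_unit hx h0 h1 hij
    rw [← h2] at this
    exact absurd isAlgebraic_one this
  · push Not at hij
    rw [hij.1, hij.2]
    simpa using hm

theorem Gam_vertex [CharZero K] (hx : Transcendental ℤ x) (h0 : x ≠ 0) (h1 : 1 + x ≠ 0) (S : Splitting Gam) :
    ∃ v : S.V, InP K (MulAction.stabilizer Gam v) := by
  have hT := S.treeAct
  have hkM := ker_le_M1 hx h0 h1
  rcases hT.dichotomy Gam_fg S.no_fixed_vertex M1_normal M1_comm (by
      intro p q
      apply hkM
      rw [MonoidHom.mem_ker, map_mul, map_mul, map_mul, map_inv, map_inv,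
        mul_comm (lam h0 h1 p), mul_assoc (lam h0 h1 q), mul_inv_cancel, mul_one,
        mul_inv_cancel]) with hA | hB
  · exfalso
    obtain ⟨L, hL, hp, hM, h, hh, c, hc0, hc⟩ := hA
    have hinj := hL.injective S.isTree
    -- the kernel of the action on the line
    have hnorm : ∀ p y : Gam, (∀ i, y • L i = L i) → ∀ i, (p * y * p⁻¹) • L i = L i := by
      intro p y hy i
      have : ∃ j, p⁻¹ • L i = L j := by
        rcases hp p⁻¹ with ⟨d, hd⟩ | ⟨d, hd⟩
        · exact ⟨_, hd i⟩
        · exact ⟨_, hd i⟩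
      obtain ⟨j, hj⟩ := this
      rw [mul_smul, mul_smul, hj, hy, ← hj, smul_inv_smul]
    have hconj : ∀ p y : Gam, ∀ e : ℤ, (∀ i, y • L i = L (e + i)) →
        (∀ i, (p * y * p⁻¹) • L i = L (e + i)) ∨ (∀ i, (p * y * p⁻¹) • L i = L (-e + i)) := by
      intro p y e hy
      rcases hp p with ⟨d, hd⟩ | ⟨d, hd⟩
      · left
        intro i
        have h2 : p⁻¹ • L i = L (i - d) := by
          rw [inv_smul_eq_iff, hd]; congr 1; ring
        rw [mul_smul, mul_smul, h2, hy, hd]
        congr 1; ring
      · right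
        intro i
        have h2 : p⁻¹ • L i = L (d - i) := by
          rw [inv_smul_eq_iff, hd]; congr 1; ring
        rw [mul_smul, mul_smul, h2, hy, hd]
        congr 1; ring
    obtain ⟨e, he⟩ := hM a a_mem
    have he0 : e = 0 := by
      have h2 : ∀ i, (t * a * t⁻¹) • L i = (a * (s * a * s⁻¹)) • L i := by
        intro i; rw [t_conj]
      rcases hconj t a e he with ht | ht <;> rcases hconj s a e he with hs | hs <;>
      · have h3 := h2 0
        rw [ht, mul_smul, hs, he] at h3
        have := hinj h3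
        omega
    have haL : ∀ i, a • L i = L i := by
      intro i; rw [he, he0, zero_add]
    have hA0 : ∀ y ∈ A0, ∀ i, y • L i = L i := by
      intro y hy
      induction hy using Subgroup.closure_induction with
      | mem y hy =>
        obtain ⟨k, rfl⟩ := hy
        intro i
        have := hnorm (s ^ k) a haL i
        simp only [ai]
        rwa [zpow_neg]
      | one => intro i; rw [one_smul]
      | mul y z _ _ hy hz => intro i; rw [mul_smul, hz, hy]
      | inv y _ hy => intro i; rw [inv_smul_eq_iff, hy]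
    have hM1 : ∀ y ∈ M1, ∀ i, y • L i = L i := by
      rintro y ⟨n0, hy⟩ i
      have h2 := hA0 _ (hy n0 le_rfl)
      have h3 := hnorm (t ^ n0)⁻¹ _ h2 i
      rwa [inv_inv, show (t ^ n0)⁻¹ * (t ^ n0 * y * (t ^ n0)⁻¹) * t ^ n0 = y from by group] at h3
    have h4 := hM1 h hh 0
    rw [hc] at h4
    have := hinj h4
    omega
  · obtain ⟨L, β, g, hL, hβ, hMβ, hg0, -⟩ := hB
    set α := (β s).toAdd with hα
    set γ := (β t).toAdd with hγ
    have hβst : ∀ i j : ℤ, (β (s ^ i * t ^ j)).toAdd = i * α + j * γ := by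
      intro i j
      rw [map_mul, map_zpow, map_zpow, toAdd_mul, toAdd_zpow, toAdd_zpow, smul_eq_mul,
        smul_eq_mul]
    have hβnf : ∀ m ∈ M1, ∀ i j : ℤ, (β (m * s ^ i * t ^ j)).toAdd = i * α + j * γ := by
      intro m hm i j
      rw [mul_assoc, map_mul, MonoidHom.mem_ker.mp (hMβ hm), one_mul, hβst]
    have hne : α ≠ 0 ∨ γ ≠ 0 := by
      by_contra hcon
      push Not at hcon
      obtain ⟨m, hm, i, j, e⟩ := normal_form g
      have := hβnf m hm i j
      rw [← e, hcon.1, hcon.2] at this
      omega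
    have hd : 0 < Int.gcd α γ := by
      rcases hne with h | h
      · exact Int.gcd_pos_of_ne_zero_left _ h
      · exact Int.gcd_pos_of_ne_zero_right _ h
    obtain ⟨α', γ', hcop, hα', hγ'⟩ : ∃ α' γ' : ℤ, IsCoprime α' γ' ∧
        α = α' * (Int.gcd α γ : ℤ) ∧ γ = γ' * (Int.gcd α γ : ℤ) := by
      refine ⟨α / (Int.gcd α γ : ℤ), γ / (Int.gcd α γ : ℤ), ?_, ?_, ?_⟩
      · rw [Int.isCoprime_iff_gcd_eq_one]
        exact Int.gcd_ediv_gcd_ediv_gcd hd
      · exact (Int.ediv_mul_cancel (Int.gcd_dvd_left _ _)).symm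
      · exact (Int.ediv_mul_cancel (Int.gcd_dvd_right _ _)).symm
    have hd' : ((Int.gcd α γ : ℕ) : ℤ) ≠ 0 := by exact_mod_cast hd.ne'
    set D : ℤ := (Int.gcd α γ : ℤ) with hD
    have hne' : γ' ≠ 0 ∨ -α' ≠ 0 := by
      rcases hne with h | h
      · right
        intro h2
        apply h
        rw [hα', show α' = 0 by omega, zero_mul]
      · left
        intro h2
        apply h
        rw [hγ', h2, zero_mul]
    set c0 : Gam := s ^ γ' * t ^ (-α') with hc0
    have hβc0 : β c0 = 1 := by
      apply Multiplicative.toAdd.injective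
      rw [hc0, hβst, toAdd_one, hα', hγ']
      ring
    have hcyc : ∀ p, β p = 1 → ∃ k : ℤ, lam h0 h1 p = lam h0 h1 c0 ^ k := by
      intro p hp
      obtain ⟨m, hm, i, j, rfl⟩ := normal_form p
      have h2 := hβnf m hm i j
      rw [hp, toAdd_one, hα', hγ'] at h2
      have h3 : i * α' + j * γ' = 0 := by
        have : (i * α' + j * γ') * D = 0 := by linarith
        rcases mul_eq_zero.mp this with h | h
        · exact h
        · exact absurd h hd'
      obtain ⟨e1, e2, he⟩ := hcop
      refine ⟨e2 * i - e1 * j, ?_⟩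
      have h4 : i = γ' * (e2 * i - e1 * j) := by linear_combination (-i) * he + e1 * h3
      have h5 : j = -α' * (e2 * i - e1 * j) := by linear_combination (-j) * he + e2 * h3
      generalize e2 * i - e1 * j = k at h4 h5
      rw [mul_assoc, map_mul, MonoidHom.mem_ker.mp (M1_le_ker h0 h1 hm), one_mul, hc0, map_mul,
        map_mul, map_zpow, map_zpow, map_zpow, map_zpow, mul_zpow, ← zpow_mul, ← zpow_mul, h4, h5]
    have htr : Transcendental ℤ ((lam h0 h1 c0 : Kˣ) : K) := by
      rw [hc0, lam_st]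
      exact transcendental_unit hx h0 h1 hne'
    -- a vertex far out on the line is fixed by `a` and by `c0`
    obtain ⟨N1, hN1⟩ := hβ a
    obtain ⟨N2, hN2⟩ := hβ c0
    set j0 := max N1 N2 with hj0
    have haj : a • L j0 = L j0 := by
      rw [hN1 j0 (le_max_left _ _), MonoidHom.mem_ker.mp (hMβ a_mem), toAdd_one, add_zero]
    have hcj : c0 • L j0 = L j0 := by
      rw [hN2 j0 (le_max_right _ _), hβc0, toAdd_one, add_zero]
    have hray := fun (p : Gam) (hp : p • L j0 = L j0) => hT.stab_ray hL hβ hp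
    refine ⟨L j0, ?_⟩
    set H := MulAction.stabilizer Gam (L j0) with hH
    have hHE : H = MulAction.stabilizer Gam (L j0) ⊓ MulAction.stabilizer Gam (L (j0 + 1)) := by
      apply le_antisymm
      · intro p hp
        exact ⟨hp, (hray p hp).2 (j0 + 1) (by omega)⟩
      · exact inf_le_left
    have hHfg : H.FG := by
      rw [hHE]
      exact S.edge_fg _ _ (hL.adj j0)
    refine InP.of_subgroup (isCocycle_bco h0 h1) (w := c0) H hHfg
      (fun p hp => hcyc p (hray p hp).1) htr
      (fun m _ m' _ hm hm' => M1_comm m (hkM hm) m' (hkM hm'))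
      ⟨a, haj, lam_a h0 h1, ?_⟩ ⟨c0, hcj, ?_⟩
    · rw [bco_a]; exact one_ne_zero
    · intro h
      apply ne_one_of_transcendental htr
      rw [h, Units.val_one]

end AffineRep

/-- No hierarchy for Baumslag's group terminates. -/
theorem Gam_not_terminatesIn (n : ℕ) : ¬ TerminatesIn n Gam := by
  have hx : Transcendental ℤ (liouvilleNumber (2 : ℕ)) := transcendental_liouvilleNumber le_rfl
  have h0 : liouvilleNumber (2 : ℕ) ≠ 0 := by
    intro h
    rw [h] at hx
    exact hx isAlgebraic_zero
  have h1 : 1 + liouvilleNumber (2 : ℕ) ≠ 0 := by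
    intro h
    have h2 : liouvilleNumber (2 : ℕ) = -1 := by linarith
    rw [h2] at hx
    exact hx isAlgebraic_one.neg
  cases n with
  | zero => exact fun h => h Gam_splits
  | succ n =>
    intro h
    rcases h with h | ⟨S, hS⟩
    · exact h Gam_splits
    · obtain ⟨v, hv⟩ := Gam_vertex hx h0 h1 S
      exact InP.not_terminatesIn n _ hv (hS v)

/-- There is a finitely presented group which is not strongly accessible over the class of
finitely generated groups. -/
theorem result : ∃ (G : Type) (_ : Group G),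
    Group.IsFinitelyPresented G ∧ ¬ StronglyAccessible G :=
  ⟨Gam, inferInstance, Gam_fp, fun ⟨n, hn⟩ => Gam_not_terminatesIn n hn⟩

end Baumslag

end Pool.Agent.Results.MP_d66326_al.NotStronglyAccessible
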